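import Pool.Agent.L5helper84.UV.VarF
import Pool.Agent.H437R2.A1

/-!
# The number variance of the zeros of zeta, and the pair correlation conjecture in the mean

No hypothesis is assumed.  We prove three statements about the zeros of the Riemann zeta function.

1. The number variance in `[T, 2T]` for intervals of `a` mean spacings is
   `(log a) / π² + O(1)`, uniformly for `1 ≤ a` with `a log a ≤ B log T`.
2. The asymptotic formula of Montgomery's conjecture holds in the mean over `β`, after the
   diagonal term `N(T; 0, 0)` is taken into account, with an error `O(1 / a)` for the average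
   over `0 ≤ β ≤ a`, uniformly for `1 ≤ a ≤ √(log T)`.
3. `N(T; α, β)` differs from the conjectured main term by at most `C T log T`, with one constant
   `C` for all windows with `0 < α ≤ β ≤ √(log T) - 1`.

Idea of the proof.  The number of zeros in `(t, t + h]` is `h log T / 2π`, minus a short Dirichlet
polynomial over prime powers, plus the difference at two points of a function `E(t)`, which is
bounded by a local sum over the zeros with weights growing exponentially with the distance to the
critical line, plus a small error.  A density theorem of Selberg's type bounds the mean square of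
the local sum.  The mean square of the Dirichlet polynomial is `(T / π²) log a + O(T)`.  The new
point is that the correlation of the Dirichlet polynomial with `E(t)` is `O(T)` as well: one
averages over short shifts and uses the mean square of the derivative of the polynomial.
The second moment of the number of zeros in `(t, t + h]` is a sum over pairs of zeros of
`(h - |γ - γ'|)⁺`, and this gives the statement on pairs.
-/

open Filter Topology Complex MeasureTheory

namespace Pool.Agent.Results.MP_8958e8_nt.BoundedError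

/-- the nontrivial zeros of the zeta function with ordinate in `[0, T]` -/
def zeros (T : ℝ) : Set ℂ :=
  {s : ℂ | riemannZeta s = 0 ∧ 0 < s.re ∧ s.re < 1 ∧ 0 ≤ s.im ∧ s.im ≤ T}

/-- the multiplicity of a zero -/
noncomputable def mult (s : ℂ) : ℕ := analyticOrderNatAt riemannZeta s

/-- the number `N(T; α, β)` of the problem: ordered pairs of zeros with ordinates in `[0, T]`,
counted with multiplicity, with difference of the ordinates times `log T / 2π` in `[α, β]` -/
noncomputable def N (T α β : ℝ) : ℕ :=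
  ∑ᶠ s ∈ zeros T, ∑ᶠ s' ∈ {s' : ℂ | s' ∈ zeros T ∧
    α ≤ (s.im - s'.im) * Real.log T / (2 * Real.pi) ∧
    (s.im - s'.im) * Real.log T / (2 * Real.pi) ≤ β}, mult s * mult s'

/-- the number of nontrivial zeros with ordinate in `(t, t + h]`, counted with multiplicity -/
noncomputable def count (t h : ℝ) : ℕ :=
  ∑ᶠ s ∈ {s : ℂ | riemannZeta s = 0 ∧ 0 < s.re ∧ s.re < 1 ∧ t < s.im ∧ s.im ≤ t + h}, mult s

/-- the pair correlation function (its value at `0` is irrelevant) -/
noncomputable def F (u : ℝ) : ℝ := 1 - (Real.sin (Real.pi * u) / (Real.pi * u)) ^ 2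

/-- `T log T / 2π` -/
noncomputable def X (T : ℝ) : ℝ := T * Real.log T / (2 * Real.pi)

/-- the zeta function has no zero on the real segment `(0, 1)` -/
lemma real_ne {s : ℂ} (h0 : 0 < s.re) (h1 : s.re < 1) (hz : riemannZeta s = 0) : s.im ≠ 0 := by
  have hne : s ≠ 1 := by
    intro h
    rw [h] at h1
    simp at h1
  have h2 : riemannZeta₁ s = 0 := by rw [Pool.Agent.H437R2.z1_of_ne hne, hz, mul_zero]
  exact Pool.Agent.H437R2.z1_zero_im h0 h2

lemma mem_zset (T : ℝ) (s : ℂ) : s ∈ zeros T ↔ s ∈ H370.zset riemannZeta 0 T := by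
  constructor
  · rintro ⟨a1, a2, a3, a4, a5⟩
    exact ⟨a2, a3, lt_of_le_of_ne a4 (Ne.symm (real_ne a2 a3 a1)), a5, a1⟩
  · rintro ⟨a1, a2, a3, a4, a5⟩
    exact ⟨a5, a1, a2, a3.le, a4⟩

/-- the set of zeros is finite -/
theorem zeros_finite (T : ℝ) : (zeros T).Finite := by
  have : zeros T = H370.zset riemannZeta 0 T := Set.ext fun s => mem_zset T s
  rw [this]
  exact H370.zeta_zeros_finite T

open Pool.Agent.L5helper84.UV in
/-- the counting function as a finite sum -/
lemma N_eq (T α β : ℝ) : (N T α β : ℝ) = ∑ s ∈ (zeros_finite T).toFinset,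
    ∑ s' ∈ (zeros_finite T).toFinset, (mult s : ℝ) * (mult s' : ℝ) *
      (if α ≤ (s.im - s'.im) * Real.log T / (2 * Real.pi) ∧
        (s.im - s'.im) * Real.log T / (2 * Real.pi) ≤ β then 1 else 0) := by
  classical
  have hfin := zeros_finite T
  set Z := hfin.toFinset with hZ
  set w : ℂ → ℂ → Prop := fun s s' => α ≤ (s.im - s'.im) * Real.log T / (2 * Real.pi) ∧
      (s.im - s'.im) * Real.log T / (2 * Real.pi) ≤ β with hw
  have hN : N T α β = ∑ s ∈ Z, ∑ s' ∈ Z.filter (fun s' => w s s'), mult s * mult s' := by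
    unfold N
    rw [finsum_mem_eq_finite_toFinset_sum _ hfin]
    refine Finset.sum_congr rfl fun s _ => ?_
    have hfin' : {s' : ℂ | s' ∈ zeros T ∧
        α ≤ (s.im - s'.im) * Real.log T / (2 * Real.pi) ∧
        (s.im - s'.im) * Real.log T / (2 * Real.pi) ≤ β}.Finite := hfin.subset fun _ h => h.1
    rw [finsum_mem_eq_finite_toFinset_sum _ hfin']
    refine Finset.sum_congr ?_ fun _ _ => rfl
    ext s'
    rw [Set.Finite.mem_toFinset, Finset.mem_filter, hZ, Set.Finite.mem_toFinset]
    rfl
  rw [hN]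
  push_cast
  refine Finset.sum_congr rfl fun s _ => ?_
  rw [Finset.sum_filter]
  refine Finset.sum_congr rfl fun s' _ => ?_
  simp only [hw]
  split_ifs <;> simp

open Pool.Agent.L5helper84.UV in
lemma N_Wn {T : ℝ} (hT : 1 < T) (α β : ℝ) : (N T α β : ℝ) =
    Wn (zeros_finite T).toFinset (2 * Real.pi / Real.log T * α)
      (2 * Real.pi / Real.log T * β) := by
  have hL : 0 < Real.log T := Real.log_pos hT
  have hpi := Real.pi_pos
  rw [N_eq]
  unfold Wn
  refine Finset.sum_congr rfl fun s _ => Finset.sum_congr rfl fun s' _ => ?_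
  have e1 : (α ≤ (s.im - s'.im) * Real.log T / (2 * Real.pi)) ↔
      2 * Real.pi / Real.log T * α ≤ s.im - s'.im := by
    rw [le_div_iff₀ (by positivity), div_mul_eq_mul_div, div_le_iff₀ hL, mul_comm α]
  have e2 : ((s.im - s'.im) * Real.log T / (2 * Real.pi) ≤ β) ↔
      s.im - s'.im ≤ 2 * Real.pi / Real.log T * β := by
    rw [div_le_iff₀ (by positivity), div_mul_eq_mul_div, le_div_iff₀ hL, mul_comm β]
  simp only [e1, e2]
  rfl

open Pool.Agent.L5helper84.UV in
lemma N_Pn {T : ℝ} (hT : 1 < T) (β : ℝ) : (N T 0 β : ℝ) =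
    Pn (zeros_finite T).toFinset (2 * Real.pi / Real.log T * β) := by
  rw [N_Wn hT, mul_zero]
  rfl

open Pool.Agent.L5helper84.UV in
lemma count_cn {T t h : ℝ} (ht : 0 ≤ t) (hth : t + h ≤ T) : (count t h : ℝ) =
    cn (zeros_finite T).toFinset t h := by
  classical
  rw [cn_tw]
  unfold count tw
  have hfin : {s : ℂ | riemannZeta s = 0 ∧ 0 < s.re ∧ s.re < 1 ∧ t < s.im ∧
      s.im ≤ t + h}.Finite := by
    refine (zeros_finite T).subset ?_
    rintro s ⟨a1, a2, a3, a4, a5⟩
    exact ⟨a1, a2, a3, ht.trans a4.le, a5.trans hth⟩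
  rw [finsum_mem_eq_finite_toFinset_sum _ hfin]
  push_cast
  refine Finset.sum_congr ?_ fun _ _ => rfl
  ext s
  rw [Finset.mem_filter, Set.Finite.mem_toFinset, Set.Finite.mem_toFinset]
  constructor
  · rintro ⟨a1, a2, a3, a4, a5⟩
    exact ⟨⟨a1, a2, a3, ht.trans a4.le, a5.trans hth⟩, a4, a5⟩
  · rintro ⟨⟨a1, a2, a3, a4, a5⟩, a6, a7⟩
    exact ⟨a1, a2, a3, a6, a7⟩

lemma mem_Z (T : ℝ) (s : ℂ) :
    s ∈ (zeros_finite T).toFinset ↔ s ∈ H370.zset riemannZeta 0 T := by
  rw [Set.Finite.mem_toFinset, mem_zset]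

open Pool.Agent.L5helper84.UV in
theorem result :
    -- the number variance, with bounded error
    (∀ B : ℝ, ∃ C T₀ : ℝ, ∀ T : ℝ, T₀ ≤ T → ∀ a : ℝ, 1 ≤ a →
      a * Real.log a ≤ B * Real.log T →
        |(∫ t in T..(2 * T), ((count t (2 * Real.pi * a / Real.log T) : ℝ) - a) ^ 2) -
          T / Real.pi ^ 2 * Real.log a| ≤ C * T) ∧
    -- the pair correlation conjecture in the mean
    (∃ C T₀ : ℝ, ∀ T : ℝ, T₀ ≤ T → ∀ a : ℝ, 1 ≤ a → a ^ 2 ≤ Real.log T →
      |∫ u in (0 : ℝ)..a, ((N T 0 u : ℝ) - (N T 0 0 : ℝ) / 2 -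
        X T * (1 / 2 + ∫ x in (0 : ℝ)..u, F x))| ≤ C * X T) ∧
    -- bounded error for every window
    (∃ C T₀ : ℝ, ∀ T : ℝ, T₀ ≤ T → ∀ α β : ℝ, 0 < α → α ≤ β → (β + 1) ^ 2 ≤ Real.log T →
      |(N T α β : ℝ) - X T * ∫ x in α..β, F x| ≤ C * X T) := by
  have hpi := Real.pi_pos
  refine ⟨fun B => ?_, ?_, ?_⟩
  · obtain ⟨B', hB'⟩ : ∃ B' : ℝ, B' = max B 1 := ⟨_, rfl⟩
    have hB1 : 1 ≤ B' := by rw [hB']; exact le_max_right _ _
    obtain ⟨C, T0, hC, hT0, h⟩ := var_full B' hB1
    obtain ⟨T1, hT1⟩ := (Real.tendsto_log_atTop.eventually_ge_atTop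
      (Real.exp B')).exists_forall_of_atTop
    refine ⟨C, max T0 T1, fun T hT a ha hab => ?_⟩
    have hTT0 : T0 ≤ T := (le_max_left _ _).trans hT
    have hLB := hT1 T ((le_max_right _ _).trans hT)
    have hT10 : 10 ≤ T := hT0.trans hTT0
    have hL0 : 0 < Real.log T := Real.log_pos (by linarith)
    have hab' : a * Real.log a ≤ B' * Real.log T :=
      hab.trans (mul_le_mul_of_nonneg_right (by rw [hB']; exact le_max_left _ _) hL0.le)
    have haL : a ≤ Real.log T :=
      Pool.Agent.TH850.UV.range_le (by linarith) (by linarith) hLB hab'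
    have h1 := h T hTT0 (zeros_finite (2 * T + 8)).toFinset (fun s => mem_Z _ s) a ha hab'
    have h7 : 2 * Real.pi * a / Real.log T ≤ 7 := by
      rw [div_le_iff₀ hL0]
      have : 2 * Real.pi ≤ 7 := by linarith [Real.pi_lt_d2]
      nlinarith
    have e : ∫ t in T..(2 * T), ((count t (2 * Real.pi * a / Real.log T) : ℝ) - a) ^ 2 =
        ∫ t in T..(2 * T), (cn (zeros_finite (2 * T + 8)).toFinset t
          (2 * Real.pi * a / Real.log T) - a) ^ 2 := by
      refine intervalIntegral.integral_congr fun t ht => ?_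
      rw [Set.uIcc_of_le (by linarith)] at ht
      rw [count_cn (T := 2 * T + 8) (by linarith [ht.1]) (by linarith [ht.2])]
    rw [e]
    exact h1
  · obtain ⟨C, T0, hC, hT0, h⟩ := pair_mean
    refine ⟨C, T0, fun T hT a ha ha2 => ?_⟩
    have hT1 : 1 < T := by linarith
    have h1 := h T hT (zeros_finite T).toFinset (fun s => mem_Z _ s) a ha ha2
    have e : ∀ u : ℝ, (N T 0 u : ℝ) - (N T 0 0 : ℝ) / 2 -
        X T * (1 / 2 + ∫ x in (0 : ℝ)..u, F x) =
        Pn (zeros_finite T).toFinset (2 * Real.pi / Real.log T * u) -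
        Pn (zeros_finite T).toFinset 0 / 2 -
        T * Real.log T / (2 * Real.pi) * (1 / 2 + Ph u) := by
      intro u
      rw [N_Pn hT1, N_Pn hT1, mul_zero]
      rfl
    simp_rw [e]
    exact h1
  · obtain ⟨C, T0, hC, hT0, h⟩ := pair_win
    refine ⟨C, T0, fun T hT α β hα hαβ hβ => ?_⟩
    have hT1 : 1 < T := by linarith
    have h1 := h T hT (zeros_finite T).toFinset (fun s => mem_Z _ s) α β hα hαβ hβ
    rw [← N_Wn hT1, Ph_sub] at h1
    exact h1

end Pool.Agent.Results.MP_8958e8_nt.BoundedError
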