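import Pool.Agent.L5helper84.UV.Eqv
import Pool.Agent.L5helper84.UV.SincB
import Pool.Agent.H437R2.A1

/-!
# The pair correlation conjecture in the mean, and almost all zeros simple and critical

Unconditionally, the following are equivalent, along every filter `𝓕 ≤ atTop`, in particular along
every sequence of values of `T` which tends to infinity.

* Almost all zeros of the zeta function are simple and lie on the critical line.
* The diagonal term `N(T; 0, 0)` is asymptotic to `T log T / 2π`.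
* Montgomery's conjecture holds in the mean: the mean over `0 ≤ β ≤ a` of the discrepancy
  `disc T β` is arbitrarily small if `a`, and then `T`, are large.
* The same, as a lower bound, for some arbitrarily large `a`.

More precisely the mean of the discrepancy is `(1 - N(T; 0, 0) / X) / 2 + O(1 / a)`, and the diagonal
term is at least `(1 - o(1)) X`.  We also prove: if the upper half of the conjecture, with the diagonal
included, holds for all `β ≥ β₀`, then all these assertions hold, and the integral of the absolute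
value of the discrepancy over `0 ≤ β ≤ a` is at most `C + 2 β₀²` for every `a`, with an absolute
constant `C`.

Idea of the proof.  The second moment of the number of zeros in an interval of `a` mean spacings
gives the formula for the mean of the discrepancy.  Every zero which is not simple or not on the
critical line contributes at least two to the diagonal term.  Conversely the third moment of the
number of zeros in an interval of length `1 / log T` is `O(T)`, by a density theorem of Selberg's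
type with all moments, so that a set of `o(X)` zeros contributes `o(X)` to the diagonal term.
-/

open Filter Topology Complex MeasureTheory

namespace Pool.Agent.Results.MP_8958e8_nt.MeanEquivalence

/-- the nontrivial zeros of the zeta function with ordinate in `[0, T]` -/
def zeros (T : ℝ) : Set ℂ :=
  {s : ℂ | riemannZeta s = 0 ∧ 0 < s.re ∧ s.re < 1 ∧ 0 ≤ s.im ∧ s.im ≤ T}

/-- the multiplicity of a zero -/
noncomputable def mult (s : ℂ) : ℕ := analyticOrderNatAt riemannZeta s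

/-- the number `N(T; α, β)` of the problem: ordered pairs of zeros with ordinates in `[0, T]`,
counted with multiplicity, with difference of the ordinates times `log T / 2π` in `[α, β]` -/
noncomputable def N (T α β : ℝ) : ℕ :=
  ∑ᶠ s ∈ zeros T, ∑ᶠ s' ∈ {s' : ℂ | s' ∈ zeros T ∧
    α ≤ (s.im - s'.im) * Real.log T / (2 * Real.pi) ∧
    (s.im - s'.im) * Real.log T / (2 * Real.pi) ≤ β}, mult s * mult s'

/-- the number of nontrivial zeros with ordinate in `[0, T]`, counted with multiplicity -/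
noncomputable def Ntotal (T : ℝ) : ℕ := ∑ᶠ s ∈ zeros T, mult s

/-- the simple zeros on the critical line with ordinate in `[0, T]` -/
def simpleCritical (T : ℝ) : Set ℂ := {s : ℂ | s ∈ zeros T ∧ s.re = 1 / 2 ∧ mult s = 1}

/-- the pair correlation function (its value at `0` is irrelevant) -/
noncomputable def F (u : ℝ) : ℝ := 1 - (Real.sin (Real.pi * u) / (Real.pi * u)) ^ 2

/-- `T log T / 2π` -/
noncomputable def X (T : ℝ) : ℝ := T * Real.log T / (2 * Real.pi)

/-- the discrepancy: the number of pairs of zeros with difference of the ordinates times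
`log T / 2π` in `(0, β]`, divided by `T log T / 2π`, minus the conjectured value -/
noncomputable def disc (T β : ℝ) : ℝ :=
  ((N T 0 β : ℝ) - (N T 0 0 : ℝ)) / X T - ∫ u in (0 : ℝ)..β, F u

/-- the zeta function has no zero on the real segment `(0, 1)` -/
lemma real_ne {s : ℂ} (h0 : 0 < s.re) (h1 : s.re < 1) (hz : riemannZeta s = 0) : s.im ≠ 0 := by
  have hne : s ≠ 1 := by
    intro h
    rw [h] at h1
    simp at h1
  have h2 : riemannZeta₁ s = 0 := by rw [Pool.Agent.H437R2.z1_of_ne hne, hz, mul_zero]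
  exact Pool.Agent.H437R2.z1_zero_im h0 h2

lemma mem_zset (T : ℝ) (s : ℂ) : s ∈ zeros T ↔ s ∈ H370.zset riemannZeta 0 T := by
  constructor
  · rintro ⟨a1, a2, a3, a4, a5⟩
    exact ⟨a2, a3, lt_of_le_of_ne a4 (Ne.symm (real_ne a2 a3 a1)), a5, a1⟩
  · rintro ⟨a1, a2, a3, a4, a5⟩
    exact ⟨a5, a1, a2, a3.le, a4⟩

/-- the set of zeros is finite -/
theorem zeros_finite (T : ℝ) : (zeros T).Finite := by
  have : zeros T = H370.zset riemannZeta 0 T := Set.ext fun s => mem_zset T s
  rw [this]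
  exact H370.zeta_zeros_finite T

open Pool.Agent.L5helper84.UV in
/-- the counting function as a finite sum -/
lemma N_eq (T α β : ℝ) : (N T α β : ℝ) = ∑ s ∈ (zeros_finite T).toFinset,
    ∑ s' ∈ (zeros_finite T).toFinset, (mult s : ℝ) * (mult s' : ℝ) *
      (if α ≤ (s.im - s'.im) * Real.log T / (2 * Real.pi) ∧
        (s.im - s'.im) * Real.log T / (2 * Real.pi) ≤ β then 1 else 0) := by
  classical
  have hfin := zeros_finite T
  set Z := hfin.toFinset with hZ
  set w : ℂ → ℂ → Prop := fun s s' => α ≤ (s.im - s'.im) * Real.log T / (2 * Real.pi) ∧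
      (s.im - s'.im) * Real.log T / (2 * Real.pi) ≤ β with hw
  have hN : N T α β = ∑ s ∈ Z, ∑ s' ∈ Z.filter (fun s' => w s s'), mult s * mult s' := by
    unfold N
    rw [finsum_mem_eq_finite_toFinset_sum _ hfin]
    refine Finset.sum_congr rfl fun s _ => ?_
    have hfin' : {s' : ℂ | s' ∈ zeros T ∧
        α ≤ (s.im - s'.im) * Real.log T / (2 * Real.pi) ∧
        (s.im - s'.im) * Real.log T / (2 * Real.pi) ≤ β}.Finite := hfin.subset fun _ h => h.1
    rw [finsum_mem_eq_finite_toFinset_sum _ hfin']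
    refine Finset.sum_congr ?_ fun _ _ => rfl
    ext s'
    rw [Set.Finite.mem_toFinset, Finset.mem_filter, hZ, Set.Finite.mem_toFinset]
    rfl
  rw [hN]
  push_cast
  refine Finset.sum_congr rfl fun s _ => ?_
  rw [Finset.sum_filter]
  refine Finset.sum_congr rfl fun s' _ => ?_
  simp only [hw]
  split_ifs <;> simp

open Pool.Agent.L5helper84.UV in
lemma N_Wn {T : ℝ} (hT : 1 < T) (α β : ℝ) : (N T α β : ℝ) =
    Wn (zeros_finite T).toFinset (2 * Real.pi / Real.log T * α)
      (2 * Real.pi / Real.log T * β) := by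
  have hL : 0 < Real.log T := Real.log_pos hT
  have hpi := Real.pi_pos
  rw [N_eq]
  unfold Wn
  refine Finset.sum_congr rfl fun s _ => Finset.sum_congr rfl fun s' _ => ?_
  have e1 : (α ≤ (s.im - s'.im) * Real.log T / (2 * Real.pi)) ↔
      2 * Real.pi / Real.log T * α ≤ s.im - s'.im := by
    rw [le_div_iff₀ (by positivity), div_mul_eq_mul_div, div_le_iff₀ hL, mul_comm α]
  have e2 : ((s.im - s'.im) * Real.log T / (2 * Real.pi) ≤ β) ↔
      s.im - s'.im ≤ 2 * Real.pi / Real.log T * β := by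
    rw [div_le_iff₀ (by positivity), div_mul_eq_mul_div, le_div_iff₀ hL, mul_comm β]
  simp only [e1, e2]
  rfl

open Pool.Agent.L5helper84.UV in
lemma N_Pn {T : ℝ} (hT : 1 < T) (β : ℝ) : (N T 0 β : ℝ) =
    Pn (zeros_finite T).toFinset (2 * Real.pi / Real.log T * β) := by
  rw [N_Wn hT, mul_zero]
  rfl

lemma mem_Z (T : ℝ) (s : ℂ) :
    s ∈ (zeros_finite T).toFinset ↔ s ∈ H370.zset riemannZeta 0 T := by
  rw [Set.Finite.mem_toFinset, mem_zset]


lemma X_WW (T : ℝ) : X T = Pool.Agent.L5helper84.UV.WW T := rfl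

open Pool.Agent.L5helper84.UV in
lemma Ntotal_tw (T : ℝ) : (Ntotal T : ℝ) = tw (zeros_finite T).toFinset := by
  unfold Ntotal tw
  rw [finsum_mem_eq_finite_toFinset_sum _ (zeros_finite T)]
  push_cast
  rfl

open Pool.Agent.L5helper84.UV in
lemma simple_sc (T : ℝ) : ((simpleCritical T).ncard : ℝ) = (sc (zeros_finite T).toFinset).card := by
  classical
  have : simpleCritical T = ((sc (zeros_finite T).toFinset : Finset ℂ) : Set ℂ) := by
    ext s
    unfold simpleCritical sc
    simp only [Set.mem_ofPred_eq, Finset.coe_filter, Set.Finite.mem_toFinset]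
    rfl
  rw [this, Set.ncard_coe_finset]

open Pool.Agent.L5helper84.UV in
lemma int_F (a b : ℝ) : ∫ u in a..b, F u = Ph b - Ph a := (Ph_sub a b).symm

open Pool.Agent.L5helper84.UV in
lemma int_F0 (v : ℝ) : ∫ u in (0 : ℝ)..v, F u = Ph v := rfl


lemma X_pos {T : ℝ} (hT : 1 < T) : 0 < X T := by
  have := Real.log_pos hT
  have hpi := Real.pi_pos
  unfold X
  have : 0 < T := by linarith
  positivity

open Pool.Agent.L5helper84.UV in
/-- the formula for the mean discrepancy -/
lemma mean_formula : ∃ C X₀ : ℝ, 0 < C ∧ 10 ≤ X₀ ∧ ∀ T : ℝ, X₀ ≤ T → ∀ a : ℝ, 1 ≤ a →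
    a ^ 2 ≤ Real.log T →
    |(1 / a) * (∫ β in (0 : ℝ)..a, disc T β) + ((N T 0 0 : ℝ) / X T - 1) / 2| ≤ C / a := by
  obtain ⟨C, X0, hC, hX0, h⟩ := mean_id
  refine ⟨C, X0, hC, hX0, fun T hT a ha ha2 => ?_⟩
  have hT1 : 1 < T := by linarith
  have h1 := h T hT (zeros_finite T).toFinset (fun s => mem_Z T s) a ha ha2
  have ha0 : 0 < a := by linarith
  have e : ∀ β : ℝ, disc T β = (Pn (zeros_finite T).toFinset (2 * Real.pi / Real.log T * β) -
      Pn (zeros_finite T).toFinset 0) / WW T - Ph β := by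
    intro β
    unfold disc
    rw [N_Pn hT1, N_Pn hT1, mul_zero, int_F0, X_WW]
  simp_rw [e]
  rw [N_Pn hT1, mul_zero, X_WW]
  obtain ⟨I, hI⟩ : ∃ I : ℝ, I = ∫ u in (0 : ℝ)..a,
    ((Pn (zeros_finite T).toFinset (2 * Real.pi / Real.log T * u) -
      Pn (zeros_finite T).toFinset 0) / WW T - Ph u) := ⟨_, rfl⟩
  obtain ⟨d, hd⟩ : ∃ d : ℝ, d = Pn (zeros_finite T).toFinset 0 / WW T := ⟨_, rfl⟩
  rw [← hI, ← hd] at h1 ⊢
  have e2 : 1 / a * I + (d - 1) / 2 = (I + a * (d - 1) / 2) / a := by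
    field_simp
  rw [e2, abs_div, abs_of_pos ha0]
  exact div_le_div_of_nonneg_right h1 ha0.le

open Pool.Agent.L5helper84.UV in
lemma tot (ε : ℝ) (hε : 0 < ε) : ∀ᶠ T in atTop, (1 - ε) * X T ≤ (Ntotal T : ℝ) ∧
    (Ntotal T : ℝ) ≤ (1 + ε) * X T := by
  filter_upwards [tw_asymp (Z := fun T => (zeros_finite T).toFinset) (fun T s => mem_Z T s) hε]
    with T h
  rw [Ntotal_tw]
  exact h

open Pool.Agent.L5helper84.UV in
lemma diag_ge {T : ℝ} (hT : 1 < T) : (Ntotal T : ℝ) ≤ N T 0 0 := by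
  rw [N_Pn hT, mul_zero, Ntotal_tw]
  exact Pn_zero_ge _

open Pool.Agent.L5helper84.UV in
/-- from the diagonal term to simple critical zeros -/
lemma simple_of_diag {𝓕 : Filter ℝ} (hF : 𝓕 ≤ atTop)
    (h : ∀ η : ℝ, 0 < η → ∀ᶠ T in 𝓕, (N T 0 0 : ℝ) ≤ (1 + η) * X T) :
    Tendsto (fun T => ((simpleCritical T).ncard : ℝ) / Ntotal T) 𝓕 (𝓝 1) := by
  rw [Metric.tendsto_nhds]
  intro ε hε
  have h1 := simple_lower (Z := fun T => (zeros_finite T).toFinset) (fun T s => mem_Z T s) hF
    le_rfl (fun η hη => by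
      filter_upwards [h η hη, hF (eventually_gt_atTop 1)] with T h1 hT1
      rw [N_Pn hT1, mul_zero, X_WW] at h1
      rw [add_zero, mul_comm]
      exact h1) (η := ε / 2) (by positivity)
  filter_upwards [h1, hF (tot (1 / 2) (by norm_num)), hF (eventually_gt_atTop 1)] with T h2 h3 hT1
  have hX := X_pos hT1
  rw [Ntotal_tw] at h3
  have h5 : 0 < tw (zeros_finite T).toFinset := by nlinarith [h3.1]
  rw [Ntotal_tw, simple_sc, Real.dist_eq, abs_lt]
  have h6 := sc_le (zeros_finite T).toFinset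
  constructor
  · rw [lt_sub_iff_add_lt, lt_div_iff₀ h5]
    nlinarith
  · rw [sub_lt_iff_lt_add, div_lt_iff₀ h5]
    nlinarith

open Pool.Agent.L5helper84.UV in
theorem result :
    -- the mean of the discrepancy
    (∃ C : ℝ, ∀ a : ℝ, 1 ≤ a → ∀ᶠ T in atTop,
      |(1 / a) * (∫ β in (0 : ℝ)..a, disc T β) + ((N T 0 0 : ℝ) / X T - 1) / 2| ≤ C / a) ∧
    -- the equivalence
    (∀ 𝓕 : Filter ℝ, 𝓕 ≤ atTop → List.TFAE
      [Tendsto (fun T => ((simpleCritical T).ncard : ℝ) / Ntotal T) 𝓕 (𝓝 1),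
       Tendsto (fun T => (N T 0 0 : ℝ) / X T) 𝓕 (𝓝 1),
       ∀ ε : ℝ, 0 < ε → ∃ A : ℝ, ∀ a : ℝ, A ≤ a → ∀ᶠ T in 𝓕,
         |(1 / a) * ∫ β in (0 : ℝ)..a, disc T β| ≤ ε,
       ∀ ε : ℝ, 0 < ε → ∀ A : ℝ, ∃ a : ℝ, A ≤ a ∧ ∀ᶠ T in 𝓕,
         -ε ≤ (1 / a) * ∫ β in (0 : ℝ)..a, disc T β]) ∧
    -- the upper half of the conjecture
    (∃ C : ℝ, ∀ 𝓕 : Filter ℝ, 𝓕 ≤ atTop → ∀ β₀ : ℝ, 0 ≤ β₀ →
      (∀ β : ℝ, β₀ ≤ β → ∀ ε : ℝ, 0 < ε → ∀ᶠ T in 𝓕,
        (N T 0 β : ℝ) ≤ X T * (1 + (∫ u in (0 : ℝ)..β, F u) + ε)) →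
      Tendsto (fun T => ((simpleCritical T).ncard : ℝ) / Ntotal T) 𝓕 (𝓝 1) ∧
      ∀ a : ℝ, 1 ≤ a → ∀ᶠ T in 𝓕,
        ∫ β in (0 : ℝ)..a, |(N T 0 β : ℝ) / X T - 1 - ∫ u in (0 : ℝ)..β, F u| ≤
          C + 2 * β₀ ^ 2) := by
  obtain ⟨C, X0, hC, hX0, hm⟩ := mean_formula
  obtain ⟨C2, hC2, hup⟩ := upper_half
  have hmF : ∀ 𝓕 : Filter ℝ, 𝓕 ≤ atTop → ∀ a : ℝ, 1 ≤ a → ∀ᶠ T in 𝓕,
      |(1 / a) * (∫ β in (0 : ℝ)..a, disc T β) + ((N T 0 0 : ℝ) / X T - 1) / 2| ≤ C / a := by
    intro 𝓕 hF a ha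
    filter_upwards [hF (eventually_ge_atTop X0),
      hF (Real.tendsto_log_atTop.eventually_ge_atTop (a ^ 2))] with T h1 h2
    exact hm T h1 a ha h2
  refine ⟨⟨C, hmF atTop le_rfl⟩, fun 𝓕 hF => ?_, C2, fun 𝓕 hF β₀ hβ₀ hyp => ?_⟩
  · -- almost all zeros simple and critical implies the diagonal
    have hAB : Tendsto (fun T => ((simpleCritical T).ncard : ℝ) / Ntotal T) 𝓕 (𝓝 1) →
        Tendsto (fun T => (N T 0 0 : ℝ) / X T) 𝓕 (𝓝 1) := by
      intro h
      rw [Metric.tendsto_nhds]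
      intro ε hε
      have h1 := diag_of_simple (Z := fun T => (zeros_finite T).toFinset) (fun T s => mem_Z T s) hF
        (fun ε' hε' => by
          filter_upwards [(Metric.tendsto_nhds.1 h) ε' hε', hF (tot (1 / 2) (by norm_num)),
            hF (eventually_gt_atTop 1)] with T g1 g2 hT1
          have hX := X_pos hT1
          have g3 : (0 : ℝ) < Ntotal T := by nlinarith [g2.1]
          rw [Real.dist_eq, abs_lt] at g1
          have g4 := g1.1
          rw [lt_sub_iff_add_lt, lt_div_iff₀ g3] at g4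
          rw [← Ntotal_tw, ← simple_sc]
          linarith) (η := ε / 2) (by positivity)
      filter_upwards [h1, hF (tot (ε / 2) (by positivity)), hF (eventually_gt_atTop 1)]
        with T g1 g2 hT1
      have hX := X_pos hT1
      have g3 := diag_ge hT1
      rw [← X_WW] at g1
      have g4 : (N T 0 0 : ℝ) ≤ X T * (1 + ε / 2) := by
        rw [N_Pn hT1, mul_zero]
        exact g1
      rw [Real.dist_eq, abs_lt]
      constructor
      · rw [lt_sub_iff_add_lt, lt_div_iff₀ hX]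
        nlinarith [g2.1]
      · rw [sub_lt_iff_lt_add, div_lt_iff₀ hX]
        nlinarith
    have hBC : Tendsto (fun T => (N T 0 0 : ℝ) / X T) 𝓕 (𝓝 1) →
        ∀ ε : ℝ, 0 < ε → ∃ A : ℝ, ∀ a : ℝ, A ≤ a → ∀ᶠ T in 𝓕,
         |(1 / a) * ∫ β in (0 : ℝ)..a, disc T β| ≤ ε := by
      intro h ε hε
      refine ⟨max 1 (2 * C / ε), fun a ha => ?_⟩
      have ha1 : 1 ≤ a := (le_max_left _ _).trans ha
      have ha0 : 0 < a := by linarith
      have ha2 : C / a ≤ ε / 2 := by
        have : 2 * C / ε ≤ a := (le_max_right _ _).trans ha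
        rw [div_le_iff₀ hε] at this
        rw [div_le_iff₀ ha0]
        linarith
      filter_upwards [hmF 𝓕 hF a ha1, (Metric.tendsto_nhds.1 h) ε hε] with T h1 h2
      rw [Real.dist_eq] at h2
      have h3 := abs_le.1 h1
      have h4 := abs_lt.1 h2
      rw [abs_le]
      constructor <;> linarith [h3.1, h3.2, h4.1, h4.2]
    have hCD : (∀ ε : ℝ, 0 < ε → ∃ A : ℝ, ∀ a : ℝ, A ≤ a → ∀ᶠ T in 𝓕,
         |(1 / a) * ∫ β in (0 : ℝ)..a, disc T β| ≤ ε) →
        ∀ ε : ℝ, 0 < ε → ∀ A : ℝ, ∃ a : ℝ, A ≤ a ∧ ∀ᶠ T in 𝓕,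
         -ε ≤ (1 / a) * ∫ β in (0 : ℝ)..a, disc T β := by
      intro h ε hε A
      obtain ⟨A', hA'⟩ := h ε hε
      refine ⟨max A A', le_max_left _ _, ?_⟩
      filter_upwards [hA' _ (le_max_right A A')] with T hT
      exact (abs_le.1 hT).1
    have hDA : (∀ ε : ℝ, 0 < ε → ∀ A : ℝ, ∃ a : ℝ, A ≤ a ∧ ∀ᶠ T in 𝓕,
         -ε ≤ (1 / a) * ∫ β in (0 : ℝ)..a, disc T β) →
        Tendsto (fun T => ((simpleCritical T).ncard : ℝ) / Ntotal T) 𝓕 (𝓝 1) := by
      intro h
      apply simple_of_diag hF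
      intro η hη
      obtain ⟨a, ha, h1⟩ := h (η / 4) (by positivity) (max 1 (4 * C / η))
      have ha1 : 1 ≤ a := (le_max_left _ _).trans ha
      have ha0 : 0 < a := by linarith
      have ha2 : C / a ≤ η / 4 := by
        have : 4 * C / η ≤ a := (le_max_right _ _).trans ha
        rw [div_le_iff₀ hη] at this
        rw [div_le_iff₀ ha0]
        linarith
      filter_upwards [h1, hmF 𝓕 hF a ha1, hF (eventually_gt_atTop 1)] with T h2 h3 hT1
      have h4 := (abs_le.1 h3).2
      have h5 : (N T 0 0 : ℝ) / X T ≤ 1 + η := by linarith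
      rwa [div_le_iff₀ (X_pos hT1)] at h5
    tfae_have 1 → 2 := hAB
    tfae_have 2 → 3 := hBC
    tfae_have 3 → 4 := hCD
    tfae_have 4 → 1 := hDA
    tfae_finish
  · obtain ⟨h1, h2⟩ := hup (fun T => (zeros_finite T).toFinset) (fun T s => mem_Z T s) 𝓕 hF β₀ hβ₀
      (fun β hβ ε hε => by
        filter_upwards [hyp β hβ ε hε, hF (eventually_gt_atTop 1)] with T hT hT1
        rw [N_Pn hT1, int_F0, X_WW] at hT
        exact hT)
    refine ⟨simple_of_diag hF fun η hη => ?_, fun a ha => ?_⟩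
    · filter_upwards [h1 η hη, hF (eventually_gt_atTop 1)] with T hT hT1
      rw [N_Pn hT1, mul_zero, X_WW, mul_comm]
      exact hT
    · filter_upwards [h2 a ha, hF (eventually_gt_atTop 1)] with T hT hT1
      have e : ∀ β : ℝ, |(N T 0 β : ℝ) / X T - 1 - ∫ u in (0 : ℝ)..β, F u| =
          |Pn (zeros_finite T).toFinset (2 * Real.pi / Real.log T * β) / WW T - 1 - Ph β| := by
        intro β
        rw [N_Pn hT1, int_F0, X_WW]
      simp_rw [e]
      exact hT

end Pool.Agent.Results.MP_8958e8_nt.MeanEquivalence
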