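import Pool.Agent.L5helper12.TW.One
import Pool.Agent.L5helper84.UV.SincB
import Pool.Agent.H437R2.A1

/-!
# Montgomery's pair correlation conjecture from windows of two incommensurable lengths

Everything is proved without the Riemann hypothesis and along an arbitrary filter `𝓕 ≤ atTop`.

Let `l₁ / l₂` be irrational. Montgomery's conjecture (for all windows `[α, β]`, `0 < α < β`) is
equivalent to one-sided bounds for the windows `[a, a + l₁]` and `[a, a + l₂]`: for each of the two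
lengths either the lower or the upper bound of the conjecture. It is also equivalent to the
assertion that almost all zeros are on the critical line together with one-sided bounds for the
windows of the two lengths, with an exponentially small error, and only for large `a`. We also
prove what follows from windows of one length.

Ideas of the proof.

1. The number variance (second moment of the number of zeros in intervals of `a` mean spacings) is
known unconditionally with bounded error. In terms of pairs: if `A'` is a limit of the functions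
`A T y = #{pairs with scaled difference at most y in absolute value} / X T` and `A_G` is the
predicted limit, then the integrals of `A' - A_G` over `[0, a]` are bounded. One-sided bounds for
windows of the lengths `l₁`, `l₂` mean that the short means `∫ u in a..a+η, (A' - A_G)` do not
decrease (or do not increase) under `a ↦ a + l_i`. As the numbers `n₁ l₁ ± n₂ l₂` are dense this
bounds these means from one side, in terms of the behaviour at `0`, and this gives `A' 0 ≤ 1`: the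
diagonal `N T 0 0` is asymptotic to `X T`, and almost all zeros are simple and on the line.

2. If almost all zeros are on the critical line then Montgomery's theorem, for the ordinates,
holds for test functions whose Fourier transform is supported in a small interval: the zeros
off the line enter with the weight `exp (c log T |Re ρ - 1/2|)`, and all moments of such sums over
the zeros near `t` are bounded, so that `o(T log T)` zeros do not matter.

3. So the Fourier transform of the limit measure is known near `0`. One-sided bounds for the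
windows of length `l` with exponentially small errors then force the difference of the limit measure
and the prediction to be periodic with period `l` (a rigidity theorem; the starting library proves
it, and the case of the Riemann hypothesis). Two incommensurable periods force equality.
-/

open Filter Topology Complex MeasureTheory

namespace Pool.Agent.Results.MP_8958e8_nt.TwoWindows

/-- the nontrivial zeros of the zeta function with ordinate in `[0, T]` -/
def zeros (T : ℝ) : Set ℂ :=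
  {s : ℂ | riemannZeta s = 0 ∧ 0 < s.re ∧ s.re < 1 ∧ 0 ≤ s.im ∧ s.im ≤ T}

/-- the multiplicity of a zero -/
noncomputable def mult (s : ℂ) : ℕ := analyticOrderNatAt riemannZeta s

/-- the number `N(T; α, β)` of the problem: ordered pairs of zeros with ordinates in `[0, T]`,
counted with multiplicity, with difference of the ordinates times `log T / 2π` in `[α, β]` -/
noncomputable def N (T α β : ℝ) : ℕ :=
  ∑ᶠ s ∈ zeros T, ∑ᶠ s' ∈ {s' : ℂ | s' ∈ zeros T ∧
    α ≤ (s.im - s'.im) * Real.log T / (2 * Real.pi) ∧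
    (s.im - s'.im) * Real.log T / (2 * Real.pi) ≤ β}, mult s * mult s'

/-- the number of nontrivial zeros with ordinate in `[0, T]`, counted with multiplicity -/
noncomputable def Ntotal (T : ℝ) : ℕ := ∑ᶠ s ∈ zeros T, mult s

/-- the simple zeros on the critical line with ordinate in `[0, T]` -/
def simpleCritical (T : ℝ) : Set ℂ := {s : ℂ | s ∈ zeros T ∧ s.re = 1 / 2 ∧ mult s = 1}

/-- the number of zeros on the critical line with ordinate in `[0, T]`, with multiplicity -/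
noncomputable def Ncritical (T : ℝ) : ℕ := ∑ᶠ s ∈ {s : ℂ | s ∈ zeros T ∧ s.re = 1 / 2}, mult s

/-- the pair correlation function (its value at `0` is irrelevant) -/
noncomputable def F (u : ℝ) : ℝ := 1 - (Real.sin (Real.pi * u) / (Real.pi * u)) ^ 2

/-- `T log T / 2π` -/
noncomputable def X (T : ℝ) : ℝ := T * Real.log T / (2 * Real.pi)

/-- the conjecture Q1, for `T → ∞` along the filter `𝓕` -/
def PairCorrelation (𝓕 : Filter ℝ) : Prop := ∀ α β : ℝ, 0 < α → α < β →
  Tendsto (fun T => (N T α β : ℝ) / (X T * ∫ u in α..β, F u)) 𝓕 (𝓝 1)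

/-- the lower half of the conjecture for the windows of length `l` -/
def Lower (𝓕 : Filter ℝ) (l : ℝ) : Prop := ∀ a : ℝ, 0 < a → ∀ ε : ℝ, 0 < ε →
  ∀ᶠ T in 𝓕, X T * ((∫ u in a..(a + l), F u) - ε) ≤ N T a (a + l)

/-- the upper half of the conjecture for the windows of length `l`; for `a = 0` the window
contains the diagonal, which contributes `X T` if almost all zeros are simple -/
def Upper (𝓕 : Filter ℝ) (l : ℝ) : Prop := ∀ a : ℝ, 0 ≤ a → ∀ ε : ℝ, 0 < ε →
  ∀ᶠ T in 𝓕, (N T a (a + l) : ℝ) ≤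
    X T * ((if a = 0 then 1 else 0) + (∫ u in a..(a + l), F u) + ε)

/-- one-sided bounds with an exponentially small error, only for large `a` -/
def OneSided (𝓕 : Filter ℝ) (l s : ℝ) : Prop := ∃ C c A : ℝ, 0 < C ∧ 0 < c ∧ 0 < A ∧
  ∀ a : ℝ, A ≤ a → ∀ ε : ℝ, 0 < ε → ∀ᶠ T in 𝓕,
    s * ((N T a (a + l) : ℝ) / X T - ∫ u in a..(a + l), F u) ≤ C * Real.exp (-(c * a)) + ε

/-- almost all zeros lie on the critical line -/
def AlmostAllCritical (𝓕 : Filter ℝ) : Prop :=
  Tendsto (fun T => (Ncritical T : ℝ) / Ntotal T) 𝓕 (𝓝 1)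

/-- the zeta function has no zero on the real segment `(0, 1)` -/
lemma real_ne {s : ℂ} (h0 : 0 < s.re) (h1 : s.re < 1) (hz : riemannZeta s = 0) : s.im ≠ 0 := by
  have hne : s ≠ 1 := by
    intro h
    rw [h] at h1
    simp at h1
  have h2 : riemannZeta₁ s = 0 := by rw [Pool.Agent.H437R2.z1_of_ne hne, hz, mul_zero]
  exact Pool.Agent.H437R2.z1_zero_im h0 h2

lemma mem_zset (T : ℝ) (s : ℂ) : s ∈ zeros T ↔ s ∈ H370.zset riemannZeta 0 T := by
  constructor
  · rintro ⟨a1, a2, a3, a4, a5⟩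
    exact ⟨a2, a3, lt_of_le_of_ne a4 (Ne.symm (real_ne a2 a3 a1)), a5, a1⟩
  · rintro ⟨a1, a2, a3, a4, a5⟩
    exact ⟨a5, a1, a2, a3.le, a4⟩

/-- the set of zeros is finite -/
theorem zeros_finite (T : ℝ) : (zeros T).Finite := by
  have : zeros T = H370.zset riemannZeta 0 T := Set.ext fun s => mem_zset T s
  rw [this]
  exact H370.zeta_zeros_finite T

open Pool.Agent.L5helper84.UV in
/-- the counting function as a finite sum -/
lemma N_eq (T α β : ℝ) : (N T α β : ℝ) = ∑ s ∈ (zeros_finite T).toFinset,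
    ∑ s' ∈ (zeros_finite T).toFinset, (mult s : ℝ) * (mult s' : ℝ) *
      (if α ≤ (s.im - s'.im) * Real.log T / (2 * Real.pi) ∧
        (s.im - s'.im) * Real.log T / (2 * Real.pi) ≤ β then 1 else 0) := by
  classical
  have hfin := zeros_finite T
  set Z := hfin.toFinset with hZ
  set w : ℂ → ℂ → Prop := fun s s' => α ≤ (s.im - s'.im) * Real.log T / (2 * Real.pi) ∧
      (s.im - s'.im) * Real.log T / (2 * Real.pi) ≤ β with hw
  have hN : N T α β = ∑ s ∈ Z, ∑ s' ∈ Z.filter (fun s' => w s s'), mult s * mult s' := by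
    unfold N
    rw [finsum_mem_eq_finite_toFinset_sum _ hfin]
    refine Finset.sum_congr rfl fun s _ => ?_
    have hfin' : {s' : ℂ | s' ∈ zeros T ∧
        α ≤ (s.im - s'.im) * Real.log T / (2 * Real.pi) ∧
        (s.im - s'.im) * Real.log T / (2 * Real.pi) ≤ β}.Finite := hfin.subset fun _ h => h.1
    rw [finsum_mem_eq_finite_toFinset_sum _ hfin']
    refine Finset.sum_congr ?_ fun _ _ => rfl
    ext s'
    rw [Set.Finite.mem_toFinset, Finset.mem_filter, hZ, Set.Finite.mem_toFinset]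
    rfl
  rw [hN]
  push_cast
  refine Finset.sum_congr rfl fun s _ => ?_
  rw [Finset.sum_filter]
  refine Finset.sum_congr rfl fun s' _ => ?_
  simp only [hw]
  split_ifs <;> simp

open Pool.Agent.L5helper84.UV in
lemma N_Wn {T : ℝ} (hT : 1 < T) (α β : ℝ) : (N T α β : ℝ) =
    Wn (zeros_finite T).toFinset (2 * Real.pi / Real.log T * α)
      (2 * Real.pi / Real.log T * β) := by
  have hL : 0 < Real.log T := Real.log_pos hT
  have hpi := Real.pi_pos
  rw [N_eq]
  unfold Wn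
  refine Finset.sum_congr rfl fun s _ => Finset.sum_congr rfl fun s' _ => ?_
  have e1 : (α ≤ (s.im - s'.im) * Real.log T / (2 * Real.pi)) ↔
      2 * Real.pi / Real.log T * α ≤ s.im - s'.im := by
    rw [le_div_iff₀ (by positivity), div_mul_eq_mul_div, div_le_iff₀ hL, mul_comm α]
  have e2 : ((s.im - s'.im) * Real.log T / (2 * Real.pi) ≤ β) ↔
      s.im - s'.im ≤ 2 * Real.pi / Real.log T * β := by
    rw [div_le_iff₀ (by positivity), div_mul_eq_mul_div, le_div_iff₀ hL, mul_comm β]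
  simp only [e1, e2]
  rfl

open Pool.Agent.L5helper84.UV in
lemma N_Pn {T : ℝ} (hT : 1 < T) (β : ℝ) : (N T 0 β : ℝ) =
    Pn (zeros_finite T).toFinset (2 * Real.pi / Real.log T * β) := by
  rw [N_Wn hT, mul_zero]
  rfl

lemma mem_Z (T : ℝ) (s : ℂ) :
    s ∈ (zeros_finite T).toFinset ↔ s ∈ H370.zset riemannZeta 0 T := by
  rw [Set.Finite.mem_toFinset, mem_zset]


lemma X_WW (T : ℝ) : X T = Pool.Agent.L5helper84.UV.WW T := rfl

open Pool.Agent.L5helper84.UV in
lemma Ntotal_tw (T : ℝ) : (Ntotal T : ℝ) = tw (zeros_finite T).toFinset := by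
  unfold Ntotal tw
  rw [finsum_mem_eq_finite_toFinset_sum _ (zeros_finite T)]
  push_cast
  rfl

open Pool.Agent.L5helper84.UV in
lemma simple_sc (T : ℝ) : ((simpleCritical T).ncard : ℝ) = (sc (zeros_finite T).toFinset).card := by
  classical
  have : simpleCritical T = ((sc (zeros_finite T).toFinset : Finset ℂ) : Set ℂ) := by
    ext s
    unfold simpleCritical sc
    simp only [Set.mem_ofPred_eq, Finset.coe_filter, Set.Finite.mem_toFinset]
    rfl
  rw [this, Set.ncard_coe_finset]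

open Pool.Agent.L5helper84.UV in
lemma int_F (a b : ℝ) : ∫ u in a..b, F u = Ph b - Ph a := (Ph_sub a b).symm

open Pool.Agent.L5helper84.UV in
lemma int_F0 (v : ℝ) : ∫ u in (0 : ℝ)..v, F u = Ph v := rfl

open Pool.Agent.L5helper84.UV in
/-- the part on windows of one length -/
lemma one_length_diag (𝓕 : Filter ℝ) (hF : 𝓕 ≤ atTop) (l : ℝ) (hl : 0 < l)
    (hyp : ∀ α : ℝ, 0 < α → ∀ ε : ℝ, 0 < ε → ∀ᶠ T in 𝓕,
      X T * ((∫ u in α..(α + l), F u) - ε) ≤ N T α (α + l)) (ε : ℝ) (hε : 0 < ε) :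
    ∀ᶠ T in 𝓕, (N T 0 0 : ℝ) ≤
      (1 + 2 / l * (∫ v in (0 : ℝ)..l, ∫ u in (0 : ℝ)..v, F u) + ε) * X T := by
  have h1 := single (Z := fun T => (zeros_finite T).toFinset) (fun T s => mem_Z T s) hF hl (by
    intro α hα ε hε
    filter_upwards [hyp α hα ε hε, hF (eventually_gt_atTop 1)] with T hT hT1
    rw [int_F, N_Wn hT1] at hT
    exact hT) hε
  filter_upwards [h1, hF (eventually_gt_atTop 1)] with T hT hT1
  rw [N_Pn hT1, mul_zero, mul_comm]
  simp_rw [int_F0]
  exact hT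


/-! ### The connection with the library -/

open Pool.Agent.Y744 (Zt mem_Zt mz Xf Xf_pos PC Nr pr gp gp_sub gp_mono gp_le Ww Ww_eq Aa OneS)
open Pool.Agent.L5helper12.TW (OffS wo Win Ph_gp diag_filter mont_off PC_zero)

lemma Z_eq (T : ℝ) : (zeros_finite T).toFinset = Zt T := by
  ext s
  rw [mem_Z, mem_Zt]

lemma X_pos {T : ℝ} (hT : 1 < T) : 0 < X T := Xf_pos hT

lemma X_Xf (T : ℝ) : X T = Xf T := rfl

lemma N_PC (T α β : ℝ) : (N T α β : ℝ) = PC T (Set.Icc α β) := by
  classical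
  rw [N_eq, Z_eq]
  unfold Pool.Agent.Y744.PC
  refine Finset.sum_congr rfl fun s _ => Finset.sum_congr rfl fun s' _ => ?_
  show (mult s : ℝ) * (mult s' : ℝ) * _ = (mult s : ℝ) * (mult s' : ℝ) * _
  congr 1
  rw [Set.indicator_apply]
  rfl

lemma N_Nr (T α β : ℝ) : (N T α β : ℝ) / X T = Nr T α β := by
  rw [N_PC]
  rfl

lemma int_gp (a b : ℝ) : ∫ u in a..b, F u = gp b - gp a := by
  rw [int_F, Ph_gp, Ph_gp]

lemma pr_pos {α β : ℝ} (hα : 0 < α) : pr α β = gp β - gp α := by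
  unfold Pool.Agent.Y744.pr
  rw [Set.indicator_of_notMem (by
    rintro ⟨h2, h3⟩
    linarith)]
  ring

variable {𝓕 : Filter ℝ}

lemma Lower_Win (hF : 𝓕 ≤ atTop) {l : ℝ} (h : Lower 𝓕 l) : Win 𝓕 l 1 := by
  refine ⟨fun a ha ε hε => ?_, fun h1 => absurd h1 (by norm_num)⟩
  filter_upwards [h a ha (ε / 2) (by positivity), hF (eventually_gt_atTop 1)] with T h1 hT
  have hX := X_pos hT
  rw [int_gp] at h1
  have h2 : gp (a + l) - gp a - ε / 2 ≤ Nr T a (a + l) := by
    rw [← N_Nr, le_div_iff₀ hX]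
    linarith
  rw [Ww_eq ha]
  linarith

lemma Upper_Win (hF : 𝓕 ≤ atTop) {l : ℝ} (h : Upper 𝓕 l) : Win 𝓕 l (-1) := by
  refine ⟨fun a ha ε hε => ?_, fun _ ε hε => ?_⟩
  · filter_upwards [h a ha.le (ε / 2) (by positivity), hF (eventually_gt_atTop 1)] with T h1 hT
    have hX := X_pos hT
    rw [int_gp, if_neg ha.ne'] at h1
    have h2 : Nr T a (a + l) ≤ gp (a + l) - gp a + ε / 2 := by
      rw [← N_Nr, div_le_iff₀ hX]
      linarith
    rw [Ww_eq ha]
    linarith
  · filter_upwards [h 0 le_rfl ε hε, hF (eventually_gt_atTop 1)] with T h1 hT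
    have hX := X_pos hT
    rw [int_gp, if_pos rfl, zero_add, Pool.Agent.Y744.gp_zero, sub_zero] at h1
    rw [← N_PC, ← X_Xf, div_le_iff₀ hX]
    linarith

lemma One_iff (l s : ℝ) : OneSided 𝓕 l s ↔ OneS 𝓕 l s := by
  unfold OneSided Pool.Agent.Y744.OneS
  simp only [N_Nr, int_gp]

lemma Lower_One (hF : 𝓕 ≤ atTop) {l : ℝ} (h : Lower 𝓕 l) : OneS 𝓕 l (-1) := by
  refine ⟨1, 1, 1, one_pos, one_pos, one_pos, fun a ha ε hε => ?_⟩
  filter_upwards [h a (by linarith) ε hε, hF (eventually_gt_atTop 1)] with T h1 hT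
  have hX := X_pos hT
  rw [int_gp] at h1
  have h2 : gp (a + l) - gp a - ε ≤ Nr T a (a + l) := by
    rw [← N_Nr, le_div_iff₀ hX]
    linarith
  have h3 := Real.exp_pos (-(1 * a))
  linarith

lemma Upper_One (hF : 𝓕 ≤ atTop) {l : ℝ} (h : Upper 𝓕 l) : OneS 𝓕 l 1 := by
  refine ⟨1, 1, 1, one_pos, one_pos, one_pos, fun a ha ε hε => ?_⟩
  filter_upwards [h a (by linarith) ε hε, hF (eventually_gt_atTop 1)] with T h1 hT
  have hX := X_pos hT
  rw [int_gp, if_neg (by linarith : a ≠ 0)] at h1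
  have h2 : Nr T a (a + l) ≤ gp (a + l) - gp a + ε := by
    rw [← N_Nr, div_le_iff₀ hX]
    linarith
  have h3 := Real.exp_pos (-(1 * a))
  linarith

lemma I_pos {α β : ℝ} (hα : 0 < α) (hαβ : α < β) : 0 < ∫ u in α..β, F u := by
  rw [int_F]
  linarith [Pool.Agent.L5helper84.UV.Ph_strict hα hαβ]

lemma PC_of_Nr (h : ∀ α β, 0 < α → α < β → Tendsto (fun T => Nr T α β) 𝓕 (𝓝 (pr α β))) :
    PairCorrelation 𝓕 := by
  intro α β hα hαβ
  have h1 := h α β hα hαβ
  have hI := I_pos hα hαβ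
  rw [pr_pos hα, ← int_gp] at h1
  have h2 := h1.div_const (∫ u in α..β, F u)
  rw [div_self hI.ne'] at h2
  refine h2.congr fun T => ?_
  rw [← N_Nr, div_div]

lemma Nr_of_PC (h : PairCorrelation 𝓕) {α β : ℝ} (hα : 0 < α) (hαβ : α < β) :
    Tendsto (fun T => Nr T α β) 𝓕 (𝓝 (gp β - gp α)) := by
  have hI := I_pos hα hαβ
  have h1 := (h α β hα hαβ).mul_const (∫ u in α..β, F u)
  rw [one_mul, int_gp] at h1
  rw [int_gp] at hI
  refine h1.congr fun T => ?_
  rw [← N_Nr, ← div_div, div_mul_cancel₀ _ hI.ne']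

lemma PC_Lower (hF : 𝓕 ≤ atTop) (h : PairCorrelation 𝓕) {l : ℝ} (hl : 0 < l) : Lower 𝓕 l := by
  intro a ha ε hε
  have h1 := (Metric.tendsto_nhds.1 (Nr_of_PC h ha (show a < a + l by linarith))) ε hε
  filter_upwards [h1, hF (eventually_gt_atTop 1)] with T h2 hT
  have hX := X_pos hT
  rw [Real.dist_eq, abs_lt, ← N_Nr] at h2
  rw [int_gp]
  have h3 := h2.1
  rw [lt_sub_iff_add_lt, lt_div_iff₀ hX] at h3
  linarith

lemma PC_One (h : PairCorrelation 𝓕) {l s : ℝ} (hl : 0 < l) (hs : s = 1 ∨ s = -1) :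
    OneS 𝓕 l s := by
  refine ⟨1, 1, 1, one_pos, one_pos, one_pos, fun a ha ε hε => ?_⟩
  have h1 := Nr_of_PC h (show 0 < a by linarith) (show a < a + l by linarith)
  filter_upwards [(Metric.tendsto_nhds.1 h1) ε hε] with T hT
  rw [Real.dist_eq] at hT
  have h2 := abs_lt.1 hT
  have h3 := Real.exp_pos (-(1 * a))
  rcases hs with rfl | rfl <;> linarith [h2.1, h2.2]

open Pool.Agent.L5helper84.UV in
/-- the diagonal: almost all zeros are simple and on the line -/
lemma simple_of_diag (hF : 𝓕 ≤ atTop)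
    (hdiag : ∀ η : ℝ, 0 < η → ∀ᶠ T in 𝓕, (N T 0 0 : ℝ) ≤ (1 + η) * X T) :
    Tendsto (fun T => (N T 0 0 : ℝ) / X T) 𝓕 (𝓝 1) ∧
      Tendsto (fun T => ((simpleCritical T).ncard : ℝ) / Ntotal T) 𝓕 (𝓝 1) := by
  have hXp : ∀ᶠ T in 𝓕, 0 < X T := by
    filter_upwards [hF (eventually_gt_atTop 1)] with T hT1 using X_pos hT1
  have htot : ∀ ε : ℝ, 0 < ε → ∀ᶠ T in 𝓕, (1 - ε) * X T ≤ tw (zeros_finite T).toFinset ∧
      tw (zeros_finite T).toFinset ≤ (1 + ε) * X T := fun ε hε =>
    hF (tw_asymp (Z := fun T => (zeros_finite T).toFinset) (fun T s => mem_Z T s) hε)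
  constructor
  · rw [Metric.tendsto_nhds]
    intro ε hε
    filter_upwards [hdiag (ε / 2) (by positivity), htot (ε / 2) (by positivity), hXp,
      hF (eventually_gt_atTop 1)] with T h1 h2 h3 hT1
    have h4 := Pn_zero_ge (zeros_finite T).toFinset
    rw [N_Pn hT1, mul_zero] at h1
    rw [N_Pn hT1, mul_zero, Real.dist_eq, abs_lt]
    constructor
    · rw [lt_sub_iff_add_lt, lt_div_iff₀ h3]
      nlinarith [h2.1]
    · rw [sub_lt_iff_lt_add, div_lt_iff₀ h3]
      nlinarith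
  · rw [Metric.tendsto_nhds]
    intro ε hε
    have h1 := simple_lower (Z := fun T => (zeros_finite T).toFinset) (fun T s => mem_Z T s) hF
      le_rfl (fun η hη => by
        filter_upwards [hdiag η hη, hF (eventually_gt_atTop 1)] with T h1 hT1
        rw [N_Pn hT1, mul_zero, X_WW] at h1
        rw [add_zero, mul_comm]
        exact h1) (η := ε / 2) (by positivity)
    filter_upwards [h1, htot (1 / 2) (by norm_num), hXp] with T h2 h3 h4
    have h5 : 0 < tw (zeros_finite T).toFinset := by nlinarith [h3.1]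
    rw [Ntotal_tw, simple_sc, Real.dist_eq, abs_lt]
    have h6 := sc_le (zeros_finite T).toFinset
    constructor
    · rw [lt_sub_iff_add_lt, lt_div_iff₀ h5]
      nlinarith
    · rw [sub_lt_iff_lt_add, div_lt_iff₀ h5]
      nlinarith

open Pool.Agent.L5helper84.UV in
/-- the zeros off the line -/
lemma off_eq (T : ℝ) : ∑ s ∈ Zt T, wo s = (Ntotal T : ℝ) - Ncritical T := by
  classical
  have h1 : (Ncritical T : ℝ) = ∑ s ∈ Zt T, (if s.re = 1 / 2 then (mult s : ℝ) else 0) := by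
    unfold Ncritical
    have hfin : {s : ℂ | s ∈ zeros T ∧ s.re = 1 / 2}.Finite :=
      (zeros_finite T).subset fun s hs => hs.1
    rw [finsum_mem_eq_finite_toFinset_sum _ hfin]
    push_cast
    rw [← Finset.sum_filter]
    refine Finset.sum_congr ?_ fun _ _ => rfl
    ext s
    rw [Set.Finite.mem_toFinset, Finset.mem_filter, ← Z_eq, Set.Finite.mem_toFinset]
    rfl
  rw [h1, Ntotal_tw, Z_eq]
  unfold tw
  rw [← Finset.sum_sub_distrib]
  refine Finset.sum_congr rfl fun s _ => ?_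
  unfold Pool.Agent.L5helper12.TW.wo
  split_ifs
  · show (0 : ℝ) = (mult s : ℝ) - (mult s : ℝ)
    ring
  · show (mult s : ℝ) = (mult s : ℝ) - 0
    ring

open Pool.Agent.L5helper84.UV in
lemma sc_le_crit (T : ℝ) : ((simpleCritical T).ncard : ℝ) ≤ Ncritical T := by
  classical
  have hfin : {s : ℂ | s ∈ zeros T ∧ s.re = 1 / 2}.Finite :=
    (zeros_finite T).subset fun s hs => hs.1
  have h1 : (Ncritical T : ℝ) = ∑ s ∈ hfin.toFinset, (mult s : ℝ) := by
    unfold Ncritical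
    rw [finsum_mem_eq_finite_toFinset_sum _ hfin]
    push_cast
    rfl
  have hfin2 : (simpleCritical T).Finite := (zeros_finite T).subset fun s hs => hs.1
  rw [h1, Set.ncard_eq_toFinset_card _ hfin2, Finset.card_eq_sum_ones]
  push_cast
  refine le_trans (Finset.sum_le_sum fun s hs => ?_)
    (Finset.sum_le_sum_of_subset_of_nonneg (s := hfin2.toFinset) (f := fun s => (mult s : ℝ))
      (fun s hs => ?_) fun s _ _ => Nat.cast_nonneg _)
  · rw [Set.Finite.mem_toFinset] at hs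
    rw [hs.2.2, Nat.cast_one]
  · rw [Set.Finite.mem_toFinset] at hs ⊢
    exact ⟨hs.1, hs.2.1⟩

lemma crit_le (T : ℝ) : (Ncritical T : ℝ) ≤ Ntotal T := by
  have h1 := off_eq T
  have h2 : 0 ≤ ∑ s ∈ Zt T, wo s :=
    Finset.sum_nonneg fun s _ => Pool.Agent.L5helper12.TW.wo_nonneg s
  linarith

lemma crit_of_simple
    (h : Tendsto (fun T => ((simpleCritical T).ncard : ℝ) / Ntotal T) 𝓕 (𝓝 1)) :
    AlmostAllCritical 𝓕 := by
  unfold AlmostAllCritical
  refine tendsto_of_tendsto_of_tendsto_of_le_of_le h tendsto_const_nhds (fun T => ?_) (fun T => ?_)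
  · exact div_le_div_of_nonneg_right (sc_le_crit T) (Nat.cast_nonneg _)
  · exact div_le_one_of_le₀ (crit_le T) (Nat.cast_nonneg _)

open Pool.Agent.L5helper84.UV in
lemma off_of_crit (hF : 𝓕 ≤ atTop) (h : AlmostAllCritical 𝓕) : OffS 𝓕 := by
  unfold AlmostAllCritical at h
  have htot : ∀ᶠ T in 𝓕, tw (zeros_finite T).toFinset ≤ (1 + 1) * X T := by
    have h0 : ∀ᶠ T in 𝓕, (1 - 1) * X T ≤ tw (zeros_finite T).toFinset ∧
        tw (zeros_finite T).toFinset ≤ (1 + 1) * X T :=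
      hF (tw_asymp (Z := fun T => (zeros_finite T).toFinset) (fun T s => mem_Z T s) one_pos)
    exact h0.mono fun T h => h.2
  have h1 : Tendsto (fun T => 1 * (1 - (Ncritical T : ℝ) / Ntotal T)) 𝓕 (𝓝 (1 * (1 - 1))) :=
    (tendsto_const_nhds.sub h).const_mul _
  rw [sub_self, mul_zero] at h1
  refine squeeze_zero_norm' ?_ h1
  filter_upwards [htot, hF (eventually_gt_atTop 1)] with T h2 hT
  have hX := X_pos hT
  have hpi := Real.pi_gt_three
  have hL : 0 < Real.log T := Real.log_pos hT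
  have h3 := crit_le T
  have hTL : 0 < T * Real.log T := by
    have : 0 < T := by linarith
    positivity
  rw [off_eq, Real.norm_of_nonneg (div_nonneg (by linarith) hTL.le), one_mul,
    div_le_iff₀ hTL]
  rw [← Ntotal_tw] at h2
  have h4 : (Ntotal T : ℝ) ≤ T * Real.log T := by
    refine h2.trans ?_
    unfold X
    rw [mul_div_assoc', div_le_iff₀ (by positivity)]
    nlinarith
  rcases (Nat.cast_nonneg (Ntotal T) : (0 : ℝ) ≤ Ntotal T).eq_or_lt with h5 | h5
  · rw [← h5] at h3 ⊢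
    have : (0 : ℝ) ≤ Ncritical T := Nat.cast_nonneg _
    have h6 : (Ncritical T : ℝ) = 0 := le_antisymm h3 this
    rw [h6]
    simp
    exact hTL.le
  · have h6 : (Ntotal T : ℝ) - Ncritical T = (1 - (Ncritical T : ℝ) / Ntotal T) * Ntotal T := by
      field_simp
    rw [h6]
    refine mul_le_mul_of_nonneg_left h4 ?_
    have : (Ncritical T : ℝ) / Ntotal T ≤ 1 := div_le_one_of_le₀ h3 h5.le
    linarith

/-- the diagonal from one-sided bounds for two lengths -/
lemma diag_of_win (hF : 𝓕 ≤ atTop) {l1 l2 s1 s2 : ℝ} (hl1 : 0 < l1) (hl2 : 0 < l2)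
    (hirr : Irrational (l1 / l2)) (hs1 : s1 = 1 ∨ s1 = -1) (hs2 : s2 = 1 ∨ s2 = -1)
    (h1 : Win 𝓕 l1 s1) (h2 : Win 𝓕 l2 s2) (η : ℝ) (hη : 0 < η) :
    ∀ᶠ T in 𝓕, (N T 0 0 : ℝ) ≤ (1 + η) * X T := by
  filter_upwards [diag_filter hF hl1 hl2 hirr hs1 hs2 h1 h2 hη, hF (eventually_gt_atTop 1)]
    with T h3 hT
  have hX := X_pos hT
  have e : Aa T 0 = (N T 0 0 : ℝ) / X T := by
    unfold Pool.Agent.Y744.Aa
    rw [PC_zero hT, N_Pn hT, mul_zero, Z_eq, X_Xf]
    ring
  rw [e, div_le_iff₀ hX] at h3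
  exact h3

lemma half_win (hF : 𝓕 ≤ atTop) {l : ℝ} (h : Lower 𝓕 l ∨ Upper 𝓕 l) :
    ∃ s : ℝ, (s = 1 ∨ s = -1) ∧ Win 𝓕 l s ∧ OneS 𝓕 l (-s) := by
  rcases h with h | h
  · exact ⟨1, Or.inl rfl, Lower_Win hF h, Lower_One hF h⟩
  · refine ⟨-1, Or.inr rfl, Upper_Win hF h, ?_⟩
    rw [neg_neg]
    exact Upper_One hF h

lemma half_bound (hF : 𝓕 ≤ atTop) {l : ℝ} (hl : 0 < l) (h : Lower 𝓕 l ∨ Upper 𝓕 l) {α β : ℝ}
    (hα : 0 < α) (hαβ : α < β) {ε : ℝ} (hε : 0 < ε) :
    ∀ᶠ T in 𝓕, |(N T α β : ℝ) / X T - ∫ u in α..β, F u| ≤ 2 * l + ε := by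
  obtain ⟨s, hs, hw, -⟩ := half_win hF h
  filter_upwards [Pool.Agent.L5helper12.TW.one_Nr hF hl hs hw hαβ hε] with T hT
  rw [N_Nr, int_gp, ← pr_pos hα]
  exact hT

/-- **Main theorem.** Along every filter `𝓕 ≤ atTop`, without the Riemann hypothesis:
Montgomery's conjecture is equivalent to one-sided bounds for windows of two incommensurable
lengths; what follows from the conjecture; what follows from windows of one length. -/
theorem result (𝓕 : Filter ℝ) (hF : 𝓕 ≤ atTop) :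
    -- windows of two incommensurable lengths
    (∀ l₁ l₂ : ℝ, 0 < l₁ → 0 < l₂ → Irrational (l₁ / l₂) →
      (PairCorrelation 𝓕 ↔ (Lower 𝓕 l₁ ∨ Upper 𝓕 l₁) ∧ (Lower 𝓕 l₂ ∨ Upper 𝓕 l₂)) ∧
      (∀ s₁ s₂ : ℝ, (s₁ = 1 ∨ s₁ = -1) → (s₂ = 1 ∨ s₂ = -1) →
        (PairCorrelation 𝓕 ↔
          AlmostAllCritical 𝓕 ∧ OneSided 𝓕 l₁ s₁ ∧ OneSided 𝓕 l₂ s₂))) ∧
    -- consequences of the conjecture
    (PairCorrelation 𝓕 → Tendsto (fun T => (N T 0 0 : ℝ) / X T) 𝓕 (𝓝 1) ∧
      Tendsto (fun T => ((simpleCritical T).ncard : ℝ) / Ntotal T) 𝓕 (𝓝 1)) ∧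
    -- windows of one length: all windows
    (∀ l α β ε : ℝ, 0 < l → 0 < α → α < β → 0 < ε →
      (Lower 𝓕 l ∨ Upper 𝓕 l → ∀ᶠ T in 𝓕,
        |(N T α β : ℝ) / X T - ∫ u in α..β, F u| ≤ 2 * l + ε) ∧
      (∀ s : ℝ, (s = 1 ∨ s = -1) → AlmostAllCritical 𝓕 → OneSided 𝓕 l s → ∀ᶠ T in 𝓕,
        |(N T α β : ℝ) / X T - ∫ u in α..β, F u| ≤ min l (Real.pi ^ 2 / 9 * l ^ 3) + ε)) ∧
    -- lower bounds for windows of one length: the diagonal, and simple critical zeros
    (∀ l : ℝ, 0 < l → Lower 𝓕 l →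
      2 / l * (∫ v in (0 : ℝ)..l, ∫ u in (0 : ℝ)..v, F u) ≤ Real.pi ^ 2 / 18 * l ^ 3 ∧
      ∀ ε : ℝ, 0 < ε → ∀ᶠ T in 𝓕,
        (N T 0 0 : ℝ) ≤ (1 + 2 / l * (∫ v in (0 : ℝ)..l, ∫ u in (0 : ℝ)..v, F u) + ε) * X T ∧
        (1 - 2 / l * (∫ v in (0 : ℝ)..l, ∫ u in (0 : ℝ)..v, F u) - ε) * Ntotal T ≤
          (simpleCritical T).ncard) := by
  obtain ⟨κ, hκ, hmont⟩ := mont_off
  have hhalf : ∀ l₁ l₂ : ℝ, 0 < l₁ → 0 < l₂ → Irrational (l₁ / l₂) →
      (Lower 𝓕 l₁ ∨ Upper 𝓕 l₁) → (Lower 𝓕 l₂ ∨ Upper 𝓕 l₂) →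
      (∀ η : ℝ, 0 < η → ∀ᶠ T in 𝓕, (N T 0 0 : ℝ) ≤ (1 + η) * X T) := by
    intro l₁ l₂ hl1 hl2 hirr h1 h2 η hη
    obtain ⟨s1, hs1, w1, -⟩ := half_win hF h1
    obtain ⟨s2, hs2, w2, -⟩ := half_win hF h2
    exact diag_of_win hF hl1 hl2 hirr hs1 hs2 w1 w2 η hη
  have hPC : PairCorrelation 𝓕 → Tendsto (fun T => (N T 0 0 : ℝ) / X T) 𝓕 (𝓝 1) ∧
      Tendsto (fun T => ((simpleCritical T).ncard : ℝ) / Ntotal T) 𝓕 (𝓝 1) := by
    intro h
    exact simple_of_diag hF (hhalf (Real.sqrt 2) 1 (by positivity) one_pos (by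
      rw [div_one]
      exact irrational_sqrt_two) (Or.inl (PC_Lower hF h (by positivity)))
      (Or.inl (PC_Lower hF h one_pos)))
  have hneg : ∀ s : ℝ, (s = 1 ∨ s = -1) → (-s = 1 ∨ -s = -1) := by
    rintro s (rfl | rfl)
    · right; rfl
    · left; norm_num
  refine ⟨fun l₁ l₂ hl1 hl2 hirr => ⟨⟨fun h => ?_, ?_⟩, fun s₁ s₂ hs1 hs2 => ⟨fun h => ?_, ?_⟩⟩,
    hPC, fun l α β ε hl hα hαβ hε => ⟨fun h => half_bound hF hl h hα hαβ hε,
      fun s hs hcrit hone => ?_⟩, fun l hl hlow => ⟨?_, fun ε hε => ?_⟩⟩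
  · exact ⟨Or.inl (PC_Lower hF h hl1), Or.inl (PC_Lower hF h hl2)⟩
  · rintro ⟨h1, h2⟩
    have hd := simple_of_diag hF (hhalf l₁ l₂ hl1 hl2 hirr h1 h2)
    have hm := hmont 𝓕 hF (off_of_crit hF (crit_of_simple hd.2))
    obtain ⟨s1, hs1, -, o1⟩ := half_win hF h1
    obtain ⟨s2, hs2, -, o2⟩ := half_win hF h2
    exact PC_of_Nr fun α β hα hαβ => (Pool.Agent.L5helper12.TW.criterion hκ hF hm hl1 hl2 hirr
      (hneg s1 hs1) (hneg s2 hs2)).2 ⟨o1, o2⟩ α β hαβ
  · exact ⟨crit_of_simple (hPC h).2, (One_iff _ _).2 (PC_One h hl1 hs1),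
      (One_iff _ _).2 (PC_One h hl2 hs2)⟩
  · rintro ⟨hcrit, o1, o2⟩
    rw [One_iff] at o1 o2
    have hm := hmont 𝓕 hF (off_of_crit hF hcrit)
    exact PC_of_Nr fun α β hα hαβ => (Pool.Agent.L5helper12.TW.criterion hκ hF hm hl1 hl2 hirr
      hs1 hs2).2 ⟨o1, o2⟩ α β hαβ
  · rw [One_iff] at hone
    have hm := hmont 𝓕 hF (off_of_crit hF hcrit)
    filter_upwards [Pool.Agent.L5helper12.TW.one_length_min hκ hF hm hl hs hone hαβ hε] with T hT
    rw [N_Nr, int_gp, ← pr_pos hα]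
    exact hT
  · have h5 := Pool.Agent.L5helper84.UV.Ph_int_le hl
    simp_rw [int_F0]
    linarith
  · have h1 := one_length_diag 𝓕 hF l hl hlow
    have hκ0 := Pool.Agent.L5helper84.UV.Ph_int_nonneg hl
    have h2 := Pool.Agent.L5helper84.UV.simple_lower (Z := fun T => (zeros_finite T).toFinset)
      (fun T s => mem_Z T s) hF
      hκ0 (fun η hη => by
        filter_upwards [h1 η hη, hF (eventually_gt_atTop 1)] with T h1 hT1
        rw [N_Pn hT1, mul_zero, X_WW] at h1
        rw [mul_comm]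
        exact h1) hε
    filter_upwards [h1 ε hε, h2] with T h3 h4
    rw [Ntotal_tw, simple_sc]
    exact ⟨h3, h4⟩

end Pool.Agent.Results.MP_8958e8_nt.TwoWindows
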